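import Mathlib
import Pool.Agent.K4H10.DN.A11

/-! # The invariance principle for the Lang–Trotter counts in families of elliptic curves -/

set_option autoImplicit false

namespace Pool.Agent.Results.MP_d74fca_nt.InvariancePrinciple

open Pool.Agent.K4H16.CG Pool.Agent.K4H10.DN

open Classical in
/-- **Donsker's invariance principle and the law of the maximum for the errors of the Lang–Trotter counts.** Let
`W 0, …, W (r - 1)` be families of Weierstrass equations whose coefficients are polynomials in `n` variables over `ℤ`, and let
`φ p` be any `0/1`-valued function of the Frobenius data modulo `p` of the members at an integer point `v` (the traces of Frobenius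
`a_p`, or `none` if `p` divides the discriminant). Example: `φ p = 1` if `W 0` has good reduction at `p` and `a_p = a`, and `0`
otherwise; then `total W φ y v` is the Lang–Trotter count up to `y` for the trace `a` of the member at `v`. Let `mean W φ y` be
the sum over the primes `p ≤ y` of the mean value of the term at `p` over the points modulo `p`, and `V(y) = cov W φ φ y` the sum
over the primes `p ≤ y` of its variance over the points modulo `p`.

For all `n` and `ε > 0` there are `A`, `V₀` and `N₀` such that for all such families and functions, all `x` with `V(x) ≥ V₀` and all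
boxes of integer points with sides at least `x ^ A`, at any place:

* for all functionals `F` of the path on `[0, 1]`, bounded by one and Lipschitz with the constant one for the uniform distance, and
  all `k ≥ N₀`: the mean over the box of the value of `F` at the whole path `y ↦ (total - mean) / √V(x)`, `y ≤ x`, in the clock of
  the variance, differs by at most `ε` from the mean value of `F` over the `2 ^ k` paths of the simple random walk;
* for all `t ≥ 0`: the proportion of the members with `total ≤ mean + t √V(x)` for ALL `y ≤ x` is within `ε` of `2 Φ(t) - 1`, and so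
  is the proportion of the members with `total ≥ mean - t √V(x)` for all `y ≤ x`; `Φ` is the normal distribution function. -/
theorem result (n : ℕ) (ε : ℝ) (hε : 0 < ε) : ∃ (A : ℕ) (V₀ : ℝ) (N₀ : ℕ),
    ∀ (r : ℕ) (W : Fin r → WeierstrassCurve (MvPolynomial (Fin n) ℤ)) (φ : ℕ → (Fin r → Option ℤ) → ℝ),
      (∀ p d, φ p d = 0 ∨ φ p d = 1) →
    ∀ x : ℕ, V₀ ≤ cov W φ φ x → ∀ (M : Fin n → ℤ) (N : Fin n → ℕ), (∀ i, x ^ A ≤ N i) →
      (∀ F, BL F → ∀ k : ℕ, N₀ ≤ k →
        |(∑ v ∈ box M N, F (path W φ x v)) / (box M N).card - (∑ e : Fin k → Bool, F (walk k e)) / 2 ^ k| ≤ ε) ∧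
      ∀ t : ℝ, 0 ≤ t →
        |(((box M N).filter (fun v => ∀ y ≤ x, total W φ y v ≤ mean W φ y + t * √(cov W φ φ x))).card : ℝ) -
          (box M N).card * (2 * (ProbabilityTheory.gaussianReal 0 1).real (Set.Iic t) - 1)| ≤ ε * (box M N).card ∧
        |(((box M N).filter (fun v => ∀ y ≤ x, mean W φ y - t * √(cov W φ φ x) ≤ total W φ y v)).card : ℝ) -
          (box M N).card * (2 * (ProbabilityTheory.gaussianReal 0 1).real (Set.Iic t) - 1)| ≤ ε * (box M N).card :=
  family_donsker n ε hε

end Pool.Agent.Results.MP_d74fca_nt.InvariancePrinciple
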