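import Mathlib
import Pool.Agent.K4H16.CG.IL9

/-! # The law of the iterated logarithm for Lang–Trotter counts in families of elliptic curves: lower half -/

set_option autoImplicit false

namespace Pool.Agent.Results.MP_d74fca_nt.IteratedLogarithm

open Pool.Agent.K4H16.CG

open Classical in
/-- **The law of the iterated logarithm for Lang–Trotter counts, lower half with the sharp constant, for both signs.** Let
`W 0, …, W (r - 1)` be families of Weierstrass equations whose coefficients are polynomials in `n` variables over `ℤ`. For a test
function `φ` with `|φ| ≤ 1` let `total W φ y v` be the sum over the primes `p ≤ y` of the values of `φ p` at the Frobenius data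
modulo `p` of the `r` members at the integer point `v` (the trace of Frobenius `a_p`, or `none` if `p` divides the discriminant); if
`φ p d` is `1` for `d i = some a` and `0` otherwise, this is the Lang–Trotter count of the primes `p ≤ y` that do not divide the
discriminant of `W i` at `v`, with `a_p = a`. Let `mean W φ y` and `V y = cov W φ φ y` be the mean and the variance of the sum in the
model of independent uniformly distributed residues modulo the primes.

For all `n`, `ε > 0` and `0 < δ ≤ 1` there are `A` and `V₀` such that for all families and test functions, all `x` with `V x ≥ V₀` and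
all boxes with sides at least `x ^ (A log log (V x))`, at any place: for all but a proportion `ε` of the points of the box there are
`y, y' ≤ x` with `V y, V y' ≥ (V x) ^ (1 - δ)` such that the sum up to `y` exceeds its mean by at least
`(1 - δ) √(2 V y log log (V x))`, and the sum up to `y'` is less than its mean by at least `(1 - δ) √(2 V y' log log (V x))`. -/
theorem result (n : ℕ) (ε δ : ℝ) (hε : 0 < ε) (hδ : 0 < δ) (hδ1 : δ ≤ 1) : ∃ A V₀ : ℝ, 0 < A ∧ 3 ≤ V₀ ∧
    ∀ (r : ℕ) (W : Fin r → WeierstrassCurve (MvPolynomial (Fin n) ℤ)) (φ : ℕ → (Fin r → Option ℤ) → ℝ),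
      (∀ p d, |φ p d| ≤ 1) → ∀ (x : ℕ) (M : Fin n → ℤ) (N : Fin n → ℕ), V₀ ≤ cov W φ φ x →
      (∀ i, (x : ℝ) ^ (A * Real.log (Real.log (cov W φ φ x))) ≤ N i) →
      (1 - ε) * (box M N).card ≤ (((box M N).filter (fun v =>
        (∃ y ≤ x, (cov W φ φ x) ^ (1 - δ) ≤ cov W φ φ y ∧
          mean W φ y + (1 - δ) * √(2 * cov W φ φ y * Real.log (Real.log (cov W φ φ x))) ≤ total W φ y v) ∧
        (∃ y ≤ x, (cov W φ φ x) ^ (1 - δ) ≤ cov W φ φ y ∧
          total W φ y v ≤ mean W φ y - (1 - δ) * √(2 * cov W φ φ y * Real.log (Real.log (cov W φ φ x)))))).card : ℝ) :=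
  family_lil_low2 n ε δ hε hδ hδ1

end Pool.Agent.Results.MP_d74fca_nt.IteratedLogarithm
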