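import Mathlib
import Pool.Agent.K4H16.CG.LTosc3

/-! # Sign changes of the error terms of the Lang–Trotter counts in families of elliptic curves -/

set_option autoImplicit false

namespace Pool.Agent.Results.MP_d74fca_nt.Oscillation

open Pool.Agent.K4H16.CG

open Classical in
/-- **Sign changes of the error term, of more than its standard size.** Let `W 0, …, W (r - 1)` be families of Weierstrass
equations whose coefficients are polynomials in `n` variables over `ℤ`, and let `φ p` be a function, bounded by `1`, of the Frobenius
data modulo `p` of the members at an integer point `v` (the traces of Frobenius `a_p`, or `none` if `p` divides the discriminant).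
Example: `φ p = 1` if `W 0` has good reduction at `p` and `a_p = a`, and `0` otherwise; then `total W φ y v` is the Lang–Trotter count
up to `y` for the trace `a` of the member at `v`. Let `mean W φ y` be the sum over the primes `p ≤ y` of the mean value of the term at `p`
over the points modulo `p`, and `cov W φ φ y` the sum over the primes `p ≤ y` of its variance over the points modulo `p`.

For all `n`, `k`, `B` and `ε > 0` there are `A`, `κ > 0` and `V₀` such that for all such families and functions, all `x` with
`V₀ ≤ cov W φ φ x` and all boxes of integer points with sides at least `x ^ A`, at any place: for all but a proportion `ε` of the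
points `v` of the box there are `y 0 < y 1 < … < y (k - 1) ≤ x`, with `cov W φ φ (y i) ≥ κ cov W φ φ x`, at which the error term
`total - mean` of the member at `v` has alternating signs `+, -, +, …` and absolute value at least `B √(1 + cov W φ φ (y i))`. -/
theorem result (n k : ℕ) (B ε : ℝ) (hε : 0 < ε) : ∃ (A : ℕ) (κ V₀ : ℝ), 0 < κ ∧
    ∀ (r : ℕ) (W : Fin r → WeierstrassCurve (MvPolynomial (Fin n) ℤ)) (φ : ℕ → (Fin r → Option ℤ) → ℝ),
      (∀ p a, |φ p a| ≤ 1) →
    ∀ (x : ℕ) (M : Fin n → ℤ) (N : Fin n → ℕ), (∀ i, x ^ A ≤ N i) → V₀ ≤ cov W φ φ x →
      (((box M N).filter (fun v => ¬ ∃ y : Fin k → ℕ, StrictMono y ∧ (∀ i, y i ≤ x ∧ κ * cov W φ φ x ≤ cov W φ φ (y i)) ∧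
          ∀ i, B * √(1 + cov W φ φ (y i)) ≤ (-1) ^ (i : ℕ) * (total W φ (y i) v - mean W φ (y i)))).card : ℝ) ≤
        ε * (box M N).card :=
  family_osc' n k B ε hε

end Pool.Agent.Results.MP_d74fca_nt.Oscillation
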