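import Mathlib
import Pool.Agent.K4H16.CG.LTtv

/-! # The primes with given Frobenius traces in families of elliptic curves, in total variation -/

set_option autoImplicit false

namespace Pool.Agent.Results.MP_d74fca_nt.TotalVariation

open Pool.Agent.K4H16.CG

/-- **The law of the set of the primes with given Frobenius traces.** Let `W 0, …, W (r - 1)` be families of Weierstrass equations
whose coefficients are polynomials in `n` variables over `ℤ`. Give every prime `p`, at every integer point `v`, a mark in `0, …, k`
which is a function of the Frobenius data modulo `p` of the members at `v` (the traces of Frobenius, or `none` if `p` divides the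
discriminant); `0` means unmarked. Example, with `k = 1`: the marked primes are the primes of good reduction of `W 0` at `v` with
`a_p = a`. Let `expected W θ x` be the sum over the primes `p ≤ x` of the proportion modulo `p` of the points at which `p` is marked.

For all `n`, `k` and `C` there is `B` such that for all families and marks, all `x ≥ 2`, all `L ≥ 1` and all boxes with sides at least
`x ^ (B (expected + L))`, at any place: the marks of all the primes `p ≤ x` at the points of the box have the same law as
independent marks with the laws given by the proportions modulo `p`, up to `exp (- C (expected + L))` in total variation: the average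
over the box of every function `G` of the marks with `|G| ≤ 1` differs by at most `exp (- C (expected + L))` from its mean in the
independent model. -/
theorem result (n k : ℕ) (C : ℝ) : ∃ B : ℕ, ∀ (r : ℕ) (W : Fin r → WeierstrassCurve (MvPolynomial (Fin n) ℤ))
    (θ : ℕ → (Fin r → Option ℤ) → Fin (k + 1)) (x : ℕ), 2 ≤ x → ∀ L : ℝ, 1 ≤ L →
    ∀ (M : Fin n → ℤ) (N : Fin n → ℕ), (∀ i, (x : ℝ) ^ ((B : ℝ) * (expected W θ x + L)) ≤ N i) →
    ∀ G : (PrimesUpTo x → Fin (k + 1)) → ℝ, (∀ f, |G f| ≤ 1) →
      |∑ v ∈ box M N, G (fun p => mark W θ p v) -
        (box M N).card * ∑ f : PrimesUpTo x → Fin (k + 1), G f * ∏ p : PrimesUpTo x, lawMod W θ p (f p)| ≤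
        Real.exp (-(C * (expected W θ x + L))) * (box M N).card :=
  tv_family n k C

end Pool.Agent.Results.MP_d74fca_nt.TotalVariation
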